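import Mathlib

/-!
# Subsystems of second-order logic with Basic Law V: definitions

The many-sorted language with one sort of objects and, for each `k`, a sort of relations of arity
`k + 1`, and a function symbol `∂` from the unary relations (sort `0`) to the objects.
-/

set_option autoImplicit false

namespace Pool.Agent.R601.BL

/-- Terms of the object sort: object variables `v_i` and `∂ X_j`, `X_j` a variable for a unary
relation. -/
inductive Tm : Type
  | var (i : ℕ) : Tm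
  | del (j : ℕ) : Tm

/-- Formulas. The relation variables of arity `k + 1` are `X^k_j`. -/
inductive Fm : Type
  | eq (s t : Tm) : Fm
  | rel (k j : ℕ) (ts : Fin (k + 1) → Tm) : Fm
  | neg (φ : Fm) : Fm
  | and (φ ψ : Fm) : Fm
  | exO (i : ℕ) (φ : Fm) : Fm
  | exR (k j : ℕ) (φ : Fm) : Fm

/-- A structure with object sort `M`: the families `S k` of relations of arity `k + 1` on `M`, and
the function `∂` (only its values on `S 0` matter). -/
structure Str (M : Type) where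
  S : (k : ℕ) → Set (Set (Fin (k + 1) → M))
  del : Set (Fin 1 → M) → M

/-- assignments of relations to the relation variables -/
abbrev RA (M : Type) : Type := (k : ℕ) → ℕ → Set (Fin (k + 1) → M)

/-- change of the assignment at the variable `X^k_j` -/
def upR {M : Type} (E : RA M) (k j : ℕ) (R : Set (Fin (k + 1) → M)) : RA M :=
  Function.update E k (Function.update (E k) j R)

/-- values of terms -/
def Tm.val {M : Type} (𝔖 : Str M) (e : ℕ → M) (E : RA M) : Tm → M
  | .var i => e i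
  | .del j => 𝔖.del (E 0 j)

/-- satisfaction -/
def Fm.Sat {M : Type} (𝔖 : Str M) : (ℕ → M) → RA M → Fm → Prop
  | e, E, .eq s t => s.val 𝔖 e E = t.val 𝔖 e E
  | e, E, .rel k j ts => (fun i => (ts i).val 𝔖 e E) ∈ E k j
  | e, E, .neg φ => ¬ Fm.Sat 𝔖 e E φ
  | e, E, .and φ ψ => Fm.Sat 𝔖 e E φ ∧ Fm.Sat 𝔖 e E ψ
  | e, E, .exO i φ => ∃ a, Fm.Sat 𝔖 (Function.update e i a) E φ
  | e, E, .exR k j φ => ∃ R ∈ 𝔖.S k, Fm.Sat 𝔖 e (upR E k j R) φ

/-- universal quantifier over objects -/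
def Fm.allO (i : ℕ) (φ : Fm) : Fm := .neg (.exO i (.neg φ))

/-- universal quantifier over relations -/
def Fm.allR (k j : ℕ) (φ : Fm) : Fm := .neg (.exR k j (.neg φ))

/-- arithmetical formulas: no quantifiers over relations -/
def IsArith : Fm → Prop
  | .eq _ _ => True
  | .rel _ _ _ => True
  | .neg φ => IsArith φ
  | .and φ ψ => IsArith φ ∧ IsArith ψ
  | .exO _ φ => IsArith φ
  | .exR _ _ _ => False

/-- `Σ¹₁`-formulas: arithmetical formulas preceded by existential relation quantifiers -/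
inductive IsSigma : Fm → Prop
  | arith {φ : Fm} : IsArith φ → IsSigma φ
  | ex {k j : ℕ} {φ : Fm} : IsSigma φ → IsSigma (.exR k j φ)

/-- `Π¹₁`-formulas: arithmetical formulas preceded by universal relation quantifiers -/
inductive IsPi : Fm → Prop
  | arith {φ : Fm} : IsArith φ → IsPi φ
  | all {k j : ℕ} {φ : Fm} : IsPi φ → IsPi (.allR k j φ)

/-- the assignment `e` with the values `x` for the first `n + 1` variables -/
def sub {M : Type} (e : ℕ → M) {n : ℕ} (x : Fin (n + 1) → M) : ℕ → M :=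
  fun i => if h : i < n + 1 then x ⟨i, h⟩ else e i

/-- the relation `{x : φ(x)}` of arity `n + 1` defined by `φ`, with parameters `e` and `E` -/
def defd {M : Type} (𝔖 : Str M) (e : ℕ → M) (E : RA M) (n : ℕ) (φ : Fm) :
    Set (Fin (n + 1) → M) := {x | φ.Sat 𝔖 (sub e x) E}

/-- assignments of relations of the structure -/
def Valid {M : Type} (𝔖 : Str M) (E : RA M) : Prop := ∀ k j, E k j ∈ 𝔖.S k

/-- Basic Law V -/
def BLV {M : Type} (𝔖 : Str M) : Prop :=
  ∀ X ∈ 𝔖.S 0, ∀ Y ∈ 𝔖.S 0, (𝔖.del X = 𝔖.del Y ↔ ∀ x, x ∈ X ↔ x ∈ Y)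

/-- arithmetical comprehension, with parameters, for all arities -/
def ArithComp {M : Type} (𝔖 : Str M) : Prop :=
  ∀ φ, IsArith φ → ∀ (e : ℕ → M) (E : RA M) (n : ℕ), Valid 𝔖 E → defd 𝔖 e E n φ ∈ 𝔖.S n

/-- `Δ¹₁`-comprehension, with parameters, for all arities -/
def DeltaComp {M : Type} (𝔖 : Str M) : Prop :=
  ∀ φ ψ, IsSigma φ → IsPi ψ → ∀ (e : ℕ → M) (E : RA M) (n : ℕ), Valid 𝔖 E →
    (∀ x : Fin (n + 1) → M, φ.Sat 𝔖 (sub e x) E ↔ ψ.Sat 𝔖 (sub e x) E) →
    defd 𝔖 e E n φ ∈ 𝔖.S n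

/-- the theory `Δ¹₁-BL₀` -/
def DeltaBL0 {M : Type} (𝔖 : Str M) : Prop := BLV 𝔖 ∧ ArithComp 𝔖 ∧ DeltaComp 𝔖

/-- The `Σ¹₁`-choice schema: if for all `x` (of length `n + 1`) there is a relation `P` of arity
`m + 1` with `φ(x, P)` (`P` is the variable `X^m_0`), then there is a relation `R` such that
`φ(x, P)` holds for all `x` and all relations `P` with `y ∈ P ↔ (x, y) ∈ R` for all `y`. -/
def SigmaChoice {M : Type} (𝔖 : Str M) : Prop :=
  ∀ φ, IsSigma φ → ∀ (e : ℕ → M) (E : RA M) (n m : ℕ), Valid 𝔖 E →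
    (∀ x : Fin (n + 1) → M, ∃ P ∈ 𝔖.S m, φ.Sat 𝔖 (sub e x) (upR E m 0 P)) →
    ∃ R ∈ 𝔖.S (n + 1 + m), ∀ x : Fin (n + 1) → M, ∀ P ∈ 𝔖.S m,
      (∀ y : Fin (m + 1) → M, y ∈ P ↔ Fin.append x y ∈ R) → φ.Sat 𝔖 (sub e x) (upR E m 0 P)

end Pool.Agent.R601.BL
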