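import Pool.Agent.R601.BL.Sym

set_option autoImplicit false

/-! The levels of relations with finite supports. -/

namespace Pool.Agent.R601.BL

open Function

/-- the action on assignments -/
def actE (g : G) (E : RA M0) : RA M0 := fun k j => actR g (E k j)

structure Inv (s : ℕ) (𝔖 : Str M0) : Prop where
  countable : ∀ k, (𝔖.S k).Countable
  closed : ∀ k, ∀ R ∈ 𝔖.S k, ∀ g : G, actR g R ∈ 𝔖.S k
  supp : ∀ k, ∀ R ∈ 𝔖.S k, ∃ n, Supp n R
  equiv : ∀ X ∈ 𝔖.S 0, ∀ g : G, 𝔖.del (actR g X) = act g (𝔖.del X)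
  inj : ∀ X ∈ 𝔖.S 0, ∀ Y ∈ 𝔖.S 0, 𝔖.del X = 𝔖.del Y → X = Y
  stage : ∀ X ∈ 𝔖.S 0, (𝔖.del X).1.1 < s
  empty : ∀ k, ∅ ∈ 𝔖.S k

theorem update_act (g : G) (e : ℕ → M0) (i : ℕ) (a : M0) :
    update (act g ∘ e) i (act g a) = act g ∘ update e i a := (Function.comp_update _ e i a).symm

theorem upR_act (g : G) (E : RA M0) (k j : ℕ) (R : Set (Fin (k + 1) → M0)) :
    upR (actE g E) k j (actR g R) = actE g (upR E k j R) := by
  funext k' j'
  by_cases h : k' = k ∧ j' = j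
  · obtain ⟨rfl, rfl⟩ := h
    rw [upR_self]
    simp only [actE, upR_self]
  · rw [upR_ne _ _ _ _ h]
    simp only [actE, upR_ne _ _ _ _ h]

theorem val_act {s : ℕ} {𝔖 : Str M0} (h : Inv s 𝔖) (g : G) (t : Tm) (e : ℕ → M0) (E : RA M0)
    (hE : Valid 𝔖 E) : t.val 𝔖 (act g ∘ e) (actE g E) = act g (t.val 𝔖 e E) := by
  cases t with
  | var i => rfl
  | del j => exact h.equiv _ (hE 0 j) g

theorem sat_act {s : ℕ} {𝔖 : Str M0} (h : Inv s 𝔖) (g : G) (φ : Fm) :
    ∀ (e : ℕ → M0) (E : RA M0), Valid 𝔖 E →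
      (φ.Sat 𝔖 (act g ∘ e) (actE g E) ↔ φ.Sat 𝔖 e E) := by
  induction φ with
  | eq s t =>
      intro e E hE
      simp only [Fm.Sat, val_act h g _ e E hE]
      exact ⟨fun h' => act_inj h', fun h' => by rw [h']⟩
  | rel k j ts =>
      intro e E hE
      simp only [Fm.Sat, val_act h g _ e E hE, actE, mem_actR, act_self]
  | neg φ ih => intro e E hE; simp only [Fm.Sat, ih e E hE]
  | and φ ψ ih1 ih2 => intro e E hE; simp only [Fm.Sat, ih1 e E hE, ih2 e E hE]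
  | exO i φ ih =>
      intro e E hE
      simp only [Fm.Sat]
      constructor
      · rintro ⟨a, ha⟩
        refine ⟨act g a, ?_⟩
        rw [← ih _ E hE, ← update_act, act_self]
        exact ha
      · rintro ⟨a, ha⟩
        refine ⟨act g a, ?_⟩
        rw [update_act, ih _ E hE]
        exact ha
  | exR k j φ ih =>
      intro e E hE
      simp only [Fm.Sat]
      constructor
      · rintro ⟨R, hR, ha⟩
        refine ⟨actR g R, h.closed k R hR g, ?_⟩
        rw [← ih e _ (hE.up (h.closed k R hR g)), ← upR_act, actR_self]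
        exact ha
      · rintro ⟨R, hR, ha⟩
        refine ⟨actR g R, h.closed k R hR g, ?_⟩
        rw [upR_act, ih e _ (hE.up hR)]
        exact ha

theorem sub_act {n : ℕ} (g : G) (e : ℕ → M0) (x : Fin (n + 1) → M0) :
    act g ∘ sub e (fun i => act g (x i)) = sub (act g ∘ e) x := by
  funext i
  unfold sub
  simp only [comp_apply]
  by_cases h : i < n + 1
  · rw [dif_pos h, dif_pos h, act_self]
  · rw [dif_neg h, dif_neg h]

theorem defd_act {s : ℕ} {𝔖 : Str M0} (h : Inv s 𝔖) (g : G) (φ : Fm) (e : ℕ → M0) (E : RA M0)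
    (hE : Valid 𝔖 E) (n : ℕ) :
    actR g (defd 𝔖 e E n φ) = defd 𝔖 (act g ∘ e) (actE g E) n φ := by
  ext x
  show Fm.Sat 𝔖 (sub e (fun i => act g (x i))) E φ ↔ Fm.Sat 𝔖 (sub (act g ∘ e) x) (actE g E) φ
  rw [← sub_act, sat_act h g φ _ E hE]

theorem Valid.act {s : ℕ} {𝔖 : Str M0} (h : Inv s 𝔖) (g : G) {E : RA M0} (hE : Valid 𝔖 E) :
    Valid 𝔖 (actE g E) := fun k j => h.closed k _ (hE k j) g

theorem exists_bound {P : ℕ → ℕ → Prop} (hP : ∀ i, ∃ m, ∀ m' ≥ m, P i m') (N : ℕ) :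
    ∃ m, ∀ m' ≥ m, ∀ i < N, P i m' := by
  induction N with
  | zero => exact ⟨0, fun _ _ i hi => absurd hi (by omega)⟩
  | succ N ih =>
      obtain ⟨m, hm⟩ := ih
      obtain ⟨m1, hm1⟩ := hP N
      refine ⟨max m m1, fun m' h i hi => ?_⟩
      rcases Nat.lt_succ_iff_lt_or_eq.1 hi with h1 | h1
      · exact hm m' (le_trans (le_max_left _ _) h) i h1
      · subst h1
        exact hm1 m' (le_trans (le_max_right _ _) h)

theorem defd_supp {s : ℕ} {𝔖 : Str M0} (h : Inv s 𝔖) (φ : Fm) (e : ℕ → M0) (E : RA M0)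
    (hE : Valid 𝔖 E) (n : ℕ) : ∃ m, Supp m (defd 𝔖 e E n φ) := by
  set N := max φ.bd (n + 1)
  obtain ⟨m1, hm1⟩ := exists_bound (P := fun i m => ∀ g : G, (∀ j < m, g j = 0) →
    act g (e i) = e i) (fun i => by
      obtain ⟨m, hm⟩ := act_supp (e i)
      exact ⟨m, fun m' hm' g hg => hm g (fun j hj => hg j (by omega))⟩) N
  obtain ⟨m2, hm2⟩ := exists_bound (P := fun k m => ∀ j < N, Supp m (E k j)) (fun k => by
      obtain ⟨m, hm⟩ := exists_bound (P := fun j m => Supp m (E k j)) (fun j => by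
        obtain ⟨m, hm⟩ := h.supp k _ (hE k j)
        exact ⟨m, fun m' hm' => hm.mono hm'⟩) N
      exact ⟨m, hm⟩) N
  refine ⟨max m1 m2, fun g hg => ?_⟩
  rw [defd_act h g φ e E hE]
  ext x
  apply Fm.sat_congr 𝔖 (N := N) φ _ _ _ _ (le_max_left _ _)
  · intro i hi
    unfold sub
    by_cases hin : i < n + 1
    · rw [dif_pos hin, dif_pos hin]
    · rw [dif_neg hin, dif_neg hin]
      exact hm1 _ (le_max_left m1 m2) i hi g hg
  · intro k hk j hj
    exact hm2 _ (le_max_right m1 m2) k hk j hj g hg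

/-- the next level -/
theorem exists_next {s : ℕ} {𝔖 : Str M0} (h : Inv s 𝔖) :
    ∃ 𝔖' : Str M0, Inv (s + 1) 𝔖' ∧ (∀ k, 𝔖.S k ⊆ 𝔖'.S k) ∧
      (∀ X ∈ 𝔖.S 0, 𝔖'.del X = 𝔖.del X) ∧
      ∀ (φ : Fm) (e : ℕ → M0) (E : RA M0) (n : ℕ), Valid 𝔖 E → defd 𝔖 e E n φ ∈ 𝔖'.S n := by
  classical
  let T : (k : ℕ) → Set (Set (Fin (k + 1) → M0)) := fun k =>
    {R | ∃ (φ : Fm) (e : ℕ → M0) (E : RA M0), Valid 𝔖 E ∧ R = defd 𝔖 e E k φ}
  have hTc : ∀ k, (T k).Countable := fun k => defd_countable 𝔖 h.countable k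
  have hTcl : ∀ k, ∀ R ∈ T k, ∀ g : G, actR g R ∈ T k := by
    rintro k R ⟨φ, e, E, hE, rfl⟩ g
    exact ⟨φ, _, _, hE.act h g, defd_act h g φ e E hE k⟩
  have hTs : ∀ k, ∀ R ∈ T k, ∃ n, Supp n R := by
    rintro k R ⟨φ, e, E, hE, rfl⟩
    exact defd_supp h φ e E hE k
  have hsub : ∀ k, 𝔖.S k ⊆ T k := by
    intro k R hR
    have hE0 : Valid 𝔖 (fun _ _ => ∅) := fun k _ => h.empty k
    refine ⟨.rel k 0 (fun i => .var i), fun _ => ((0, 0), ⟨0, ∅⟩), upR (fun _ _ => ∅) k 0 R,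
      hE0.up hR, ?_⟩
    ext x
    show x ∈ R ↔ (fun i : Fin (k + 1) => sub (fun _ => (((0, 0), ⟨0, ∅⟩) : M0)) x (i : ℕ)) ∈
      upR (fun _ _ => ∅) k 0 R k 0
    rw [upR_self]
    have : (fun i : Fin (k + 1) => sub (fun _ => (((0, 0), ⟨0, ∅⟩) : M0)) x (i : ℕ)) = x := by
      funext i
      unfold sub
      rw [dif_pos i.2]
    rw [this]
  obtain ⟨f, hf1, hf2, hf3⟩ := exists_equiv_inj s (T 0 \ 𝔖.S 0)
    ((hTc 0).mono Set.sdiff_subset)
    (fun X hX g => ⟨hTcl 0 X hX.1 g, fun h' => hX.2 (by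
      have := h.closed 0 _ h' g
      rwa [actR_self] at this)⟩)
    (fun X hX => hTs 0 X hX.1)
  refine ⟨⟨T, fun X => if X ∈ 𝔖.S 0 then 𝔖.del X else f X⟩, ?_, hsub, ?_, ?_⟩
  · refine ⟨hTc, hTcl, hTs, ?_, ?_, ?_, fun k => hsub k (h.empty k)⟩
    · intro X hX g
      by_cases h1 : X ∈ 𝔖.S 0
      · simp only [if_pos h1, if_pos (h.closed 0 X h1 g)]
        exact h.equiv X h1 g
      · have h2 : actR g X ∉ 𝔖.S 0 := fun h' => h1 (by
          have := h.closed 0 _ h' g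
          rwa [actR_self] at this)
        simp only [if_neg h1, if_neg h2]
        exact hf2 X ⟨hX, h1⟩ g
    · intro X hX Y hY hXY
      by_cases h1 : X ∈ 𝔖.S 0 <;> by_cases h2 : Y ∈ 𝔖.S 0
      · simp only [if_pos h1, if_pos h2] at hXY
        exact h.inj X h1 Y h2 hXY
      · simp only [if_pos h1, if_neg h2] at hXY
        have h3 := h.stage X h1
        rw [hXY, hf1 Y ⟨hY, h2⟩] at h3
        omega
      · simp only [if_neg h1, if_pos h2] at hXY
        have h3 := h.stage Y h2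
        rw [← hXY, hf1 X ⟨hX, h1⟩] at h3
        omega
      · simp only [if_neg h1, if_neg h2] at hXY
        exact hf3 ⟨hX, h1⟩ ⟨hY, h2⟩ hXY
    · intro X hX
      by_cases h1 : X ∈ 𝔖.S 0
      · simp only [if_pos h1]
        have := h.stage X h1
        omega
      · simp only [if_neg h1]
        rw [hf1 X ⟨hX, h1⟩]
        omega
  · intro X hX
    simp only [if_pos hX]
  · intro φ e E n hE
    exact ⟨φ, e, E, hE, rfl⟩

/-! ### The base -/

/-- the indices of the fibres -/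
def oo (i : ℕ) : M0 := ((0, i), ⟨0, ∅⟩)

/-- the elements of the fibres -/
def aa (i : ℕ) (ε : ZMod 2) : M0 := ((0, 0), ⟨i + 1, {h | h (Fin.last i) = ε}⟩)

theorem act_oo (g : G) (i : ℕ) : act g (oo i) = oo i := by
  simp only [act, oo]
  rfl

theorem act_aa (g : G) (i : ℕ) (ε : ZMod 2) : act g (aa i ε) = aa i (ε + g i) := by
  have : {h : Fin (i + 1) → ZMod 2 | h + res (i + 1) g ∈ {h : Fin (i + 1) → ZMod 2 |
      h (Fin.last i) = ε}} = {h | h (Fin.last i) = ε + g i} := by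
    ext h
    show h (Fin.last i) + g i = ε ↔ h (Fin.last i) = ε + g i
    constructor
    · intro h'
      rw [← h', add_assoc, CharTwo.add_self_eq_zero, add_zero]
    · intro h'
      rw [h', add_assoc, CharTwo.add_self_eq_zero, add_zero]
  exact congrArg (fun B => (((0, 0), ⟨i + 1, B⟩) : M0)) this

theorem aa_inj {i : ℕ} {ε ε' : ZMod 2} (h : aa i ε = aa i ε') : ε = ε' := by
  simp only [aa, Prod.mk.injEq, true_and, Sigma.mk.injEq, heq_eq_eq] at h
  have h1 : (fun _ => ε : Fin (i + 1) → ZMod 2) ∈ {h : Fin (i + 1) → ZMod 2 |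
      h (Fin.last i) = ε} := rfl
  rw [h] at h1
  exact h1

theorem oo_inj {i j : ℕ} (h : oo i = oo j) : i = j := by
  simp only [oo, Prod.mk.injEq, true_and, and_true] at h
  exact h

/-- the relation between the indices and the elements of the fibres -/
def R0 (k : ℕ) : Set (Fin (k + 1) → M0) := {x | ∃ i ε, x 0 = oo i ∧ x (Fin.last k) = aa i ε}

theorem actR_R0 (g : G) (k : ℕ) : actR g (R0 k) = R0 k := by
  ext x
  constructor
  · rintro ⟨i, ε, h1, h2⟩
    have h1' : act g (x 0) = oo i := h1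
    have h2' : act g (x (Fin.last k)) = aa i ε := h2
    refine ⟨i, ε + g i, ?_, ?_⟩
    · rw [← act_self g (x 0), h1', act_oo]
    · rw [← act_self g (x _), h2', act_aa]
  · rintro ⟨i, ε, h1, h2⟩
    refine ⟨i, ε + g i, ?_, ?_⟩
    · show act g (x 0) = _
      rw [h1, act_oo]
    · show act g (x _) = _
      rw [h2, act_aa]

theorem R0_zero : R0 0 = ∅ := by
  ext x
  simp only [Set.mem_empty_iff_false, iff_false]
  rintro ⟨i, ε, h1, h2⟩
  have h3 : x (Fin.last 0) = x 0 := rfl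
  rw [h3, h1] at h2
  simp only [oo, aa, Prod.mk.injEq, Sigma.mk.injEq] at h2
  omega

noncomputable def baseStr : Str M0 := ⟨fun k => {∅, R0 k}, fun _ => oo 0⟩

theorem inv_base : Inv 1 baseStr := by
  have h0 : ∀ X ∈ baseStr.S 0, X = ∅ := by
    rintro X (hX | hX)
    · exact hX
    · rw [Set.mem_singleton_iff] at hX; rw [hX, R0_zero]
  refine ⟨fun k => Set.Countable.insert _ (Set.countable_singleton _), ?_, ?_, ?_, ?_, ?_, ?_⟩
  · rintro k R (rfl | hR) g
    · left; rfl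
    · rw [Set.mem_singleton_iff] at hR
      right
      rw [hR, actR_R0]; rfl
  · rintro k R (rfl | hR)
    · exact ⟨0, fun g _ => rfl⟩
    · rw [Set.mem_singleton_iff] at hR
      rw [hR]
      exact ⟨0, fun g _ => actR_R0 g k⟩
  · intro X _ g
    exact (act_oo g 0).symm
  · intro X hX Y hY _
    rw [h0 X hX, h0 Y hY]
  · intro X _
    exact Nat.zero_lt_one
  · intro k; left; rfl

/-- **The levels.** -/
theorem exists_levels : ∃ (S : ℕ → (k : ℕ) → Set (Set (Fin (k + 1) → M0)))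
    (del : Set (Fin 1 → M0) → M0), (∀ l k, S l k ⊆ S (l + 1) k) ∧ (∀ l k, ∅ ∈ S l k) ∧
    R0 1 ∈ S 0 1 ∧ (∀ l k, ∀ R ∈ S l k, ∃ n, Supp n R) ∧
    (∀ l, ∀ X ∈ S l 0, ∀ Y ∈ S l 0, del X = del Y → X = Y) ∧
    ∀ (l : ℕ) (φ : Fm) (e : ℕ → M0) (E : RA M0) (n : ℕ), Valid ⟨S l, del⟩ E →
      defd ⟨S l, del⟩ e E n φ ∈ S (l + 1) n := by
  classical
  choose nx hnx using @exists_next
  let T : Type := Σ' (s : ℕ) (𝔖 : Str M0), Inv s 𝔖
  let step : T → T := fun t => ⟨t.1 + 1, nx t.2.2, (hnx t.2.2).1⟩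
  let L : ℕ → T := fun l => step^[l] ⟨1, baseStr, inv_base⟩
  have hL : ∀ l, L (l + 1) = step (L l) := fun l => iterate_succ_apply' _ _ _
  let Z : ℕ → Str M0 := fun l => (L l).2.1
  have hZ : ∀ l, Inv (L l).1 (Z l) := fun l => (L l).2.2
  have hZs : ∀ l, Z (l + 1) = nx (L l).2.2 := by
    intro l
    show (L (l + 1)).2.1 = _
    rw [hL]
  have hmono : ∀ l k, (Z l).S k ⊆ (Z (l + 1)).S k := by
    intro l k
    rw [hZs]
    exact (hnx (L l).2.2).2.1 k
  have hdel : ∀ l, ∀ X ∈ (Z l).S 0, (Z (l + 1)).del X = (Z l).del X := by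
    intro l
    rw [hZs]
    exact (hnx (L l).2.2).2.2.1
  have hcl : ∀ l (φ : Fm) (e : ℕ → M0) (E : RA M0) (n : ℕ), Valid (Z l) E →
      defd (Z l) e E n φ ∈ (Z (l + 1)).S n := by
    intro l
    rw [hZs]
    exact (hnx (L l).2.2).2.2.2
  have hmono' : ∀ l m, l ≤ m → ∀ k, (Z l).S k ⊆ (Z m).S k := by
    intro l m hlm k
    induction hlm with
    | refl => exact subset_rfl
    | step _ ih => exact ih.trans (hmono _ k)
  have hdel' : ∀ l m, l ≤ m → ∀ X ∈ (Z l).S 0, (Z m).del X = (Z l).del X := by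
    intro l m hlm X hX
    induction hlm with
    | refl => rfl
    | @step m hlm ih => rw [hdel m X (hmono' l m hlm 0 hX), ih]
  let D : Set (Fin 1 → M0) → M0 := fun X =>
    if h : ∃ l, X ∈ (Z l).S 0 then (Z (Nat.find h)).del X else oo 0
  have hD : ∀ l, ∀ X ∈ (Z l).S 0, D X = (Z l).del X := by
    intro l X hX
    have h : ∃ l, X ∈ (Z l).S 0 := ⟨l, hX⟩
    simp only [D, dif_pos h]
    exact (hdel' _ l (Nat.find_min' h hX) X (Nat.find_spec h)).symm
  refine ⟨fun l => (Z l).S, D, hmono, fun l k => (hZ l).empty k, ?_, fun l k => (hZ l).supp k,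
    ?_, ?_⟩
  · right; rfl
  · intro l X hX Y hY hXY
    rw [hD l X hX, hD l Y hY] at hXY
    exact (hZ l).inj X hX Y hY hXY
  · intro l φ e E n hE
    have : defd ⟨(Z l).S, D⟩ e E n φ = defd (Z l) e E n φ := by
      ext x
      exact Fm.sat_congr_del (Z l).S D (Z l).del (hD l) φ (sub e x) E (fun j => hE 0 j)
    rw [this]
    exact hcl l φ e E n hE

end Pool.Agent.R601.BL
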