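import Pool.Agent.R601.BL.Ultra

set_option autoImplicit false

namespace Pool.Agent.R601.BL

open Function Filter

namespace Levels

variable {M : Type} (L : Levels M)

theorem valid_bound {E : RA (MU M)} (hE : Valid L.strW E) (N : ℕ) :
    ∃ l, ∀ k < N, ∀ j < N, E k j ∈ L.SU l k := by
  have h1 : ∀ k, ∃ m, ∀ m' ≥ m, ∀ j < N, E k j ∈ L.SU m' k := fun k =>
    exists_bound (P := fun j m => E k j ∈ L.SU m k) (fun j => by
      have := hE k j
      simp only [strW, Set.mem_iUnion] at this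
      obtain ⟨m, hm⟩ := this
      exact ⟨m, fun m' hm' => L.SU_mono hm' k hm⟩) N
  obtain ⟨l, hl⟩ := exists_bound (P := fun k m => ∀ j < N, E k j ∈ L.SU m k) h1 N
  exact ⟨l, hl l le_rfl⟩

theorem sub_germ {n : ℕ} (es : ℕ → ℕ → M) (xs : Fin (n + 1) → ℕ → M) :
    sub (fun i => ((es i : ℕ → M) : MU M)) (fun i => ((xs i : ℕ → M) : MU M)) =
      fun i => (((fun m => sub (fun i => es i m) (fun i => xs i m) i) : ℕ → M) : MU M) := by
  funext i
  unfold sub
  by_cases h : i < n + 1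
  · simp only [dif_pos h]
  · simp only [dif_neg h]

/-- the existence of representatives for all parameters below a bound -/
theorem exists_params {E : RA (MU M)} (hE : Valid L.strW E) (N : ℕ) :
    ∃ (l : ℕ) (Es : (k : ℕ) → ℕ → ℕ → Set (Fin (k + 1) → M)),
      (∀ k j n, Es k j n ∈ L.S l k) ∧ ∀ k < N, ∀ j < N, E k j = star (Es k j) := by
  obtain ⟨l, hl⟩ := L.valid_bound hE N
  have h1 : ∀ k j, ∃ R : ℕ → Set (Fin (k + 1) → M), (∀ n, R n ∈ L.S l k) ∧
      (k < N → j < N → E k j = star R) := by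
    intro k j
    by_cases h : k < N ∧ j < N
    · obtain ⟨R, h2, h3⟩ := hl k h.1 j h.2
      exact ⟨R, h2, fun _ _ => h3⟩
    · exact ⟨fun _ => ∅, fun _ => L.empty l k, fun h2 h3 => absurd ⟨h2, h3⟩ h⟩
  choose Es h2 h3 using h1
  exact ⟨l, Es, h2, fun k hk j hj => h3 k j hk hj⟩

theorem deltaComp [Nonempty M] : DeltaComp L.strW := by
  classical
  intro φ ψ hφ hψ e E n hE hiff
  set N := max φ.bd ψ.bd with hN
  obtain ⟨l0, Es, hEs, hEE⟩ := L.exists_params hE N
  obtain ⟨es, rfl⟩ := exists_rep e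
  -- replace the parameters
  have hc : ∀ (χ : Fm), χ.bd ≤ N → ∀ x : Fin (n + 1) → MU M,
      (χ.Sat L.strW (sub (fun i => ((es i : ℕ → M) : MU M)) x) E ↔
        χ.Sat L.strW (sub (fun i => ((es i : ℕ → M) : MU M)) x) (fun k j => star (Es k j))) :=
    fun χ hχ x => Fm.sat_congr L.strW (N := N) χ _ _ _ _ hχ (fun _ _ => rfl) hEE
  -- the statement at level `l` over the base
  let P : ℕ → ℕ → (Fin (n + 1) → M) → Prop := fun l m x =>
    ¬ φ.Sat (L.str l) (sub (fun i => es i m) x) (fun k j => Es k j m) ∧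
      ψ.Sat (L.str l) (sub (fun i => es i m) x) (fun k j => Es k j m)
  have hP : ∀ l m x, P (l + 1) m x → P l m x := by
    rintro l m x ⟨h1, h2⟩
    exact ⟨fun h => h1 (sigma_mono (L.mono l) hφ _ _ h), pi_anti (L.mono l) hψ _ _ h2⟩
  have hlos : ∀ (χ : Fm) (l : ℕ) (xs : Fin (n + 1) → ℕ → M),
      (χ.Sat (L.strU l) (sub (fun i => ((es i : ℕ → M) : MU M)) (fun i => ((xs i : ℕ → M) : MU M)))
        (fun k j => star (Es k j)) ↔ ∀ᶠ m in (UU : Filter ℕ),
        χ.Sat (L.str l) (sub (fun i => es i m) (fun i => xs i m)) (fun k j => Es k j m)) := by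
    intro χ l xs
    rw [sub_germ, L.los l χ]
  have hmonoU : ∀ l m, l ≤ m → ∀ k, L.SU l k ⊆ L.SU m k := fun l m h k => L.SU_mono h k
  -- uniformity
  have huni : ∃ l, l0 ≤ l ∧ ∀ x : Fin (n + 1) → MU M,
      φ.Sat (L.strU l) (sub (fun i => ((es i : ℕ → M) : MU M)) x) (fun k j => star (Es k j)) ∨
      ¬ ψ.Sat (L.strU l) (sub (fun i => ((es i : ℕ → M) : MU M)) x)
        (fun k j => star (Es k j)) := by
    by_contra hcon
    push Not at hcon
    have h1 : ∀ l, l0 ≤ l → ∀ᶠ m in (UU : Filter ℕ), ∃ x, P l m x := by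
      intro l hl
      obtain ⟨x, hx1, hx2⟩ := hcon l hl
      obtain ⟨xs, rfl⟩ := exists_rep x
      rw [hlos, ← Ultrafilter.eventually_not] at hx1
      rw [hlos] at hx2
      filter_upwards [hx1, hx2] with m h1 h2
      exact ⟨_, h1, h2⟩
    have h2 : ∀ m, ∃ x, ∀ l ≤ m, (∃ x', P (l0 + l) m x') → P (l0 + l) m x := fun m =>
      diag (fun l x => P (l0 + l) m x) (fun l x h => hP (l0 + l) m x h) m
    choose xs hxs using h2
    have h3 : ∀ l, ∀ᶠ m in (UU : Filter ℕ), P (l0 + l) m (xs m) := by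
      intro l
      have h4 : ∀ᶠ m in (UU : Filter ℕ), l ≤ m :=
        (Nat.hyperfilter_le_atTop) (eventually_ge_atTop l)
      filter_upwards [h1 (l0 + l) (by omega), h4] with m h5 h6
      exact hxs m l h6 h5
    -- the limit point
    have h5 : ∀ l, ¬ φ.Sat (L.strU (l0 + l)) (sub (fun i => ((es i : ℕ → M) : MU M))
        (fun i => (((fun m => xs m i) : ℕ → M) : MU M))) (fun k j => star (Es k j)) ∧
        ψ.Sat (L.strU (l0 + l)) (sub (fun i => ((es i : ℕ → M) : MU M))
        (fun i => (((fun m => xs m i) : ℕ → M) : MU M))) (fun k j => star (Es k j)) := by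
      intro l
      rw [hlos, hlos, ← Ultrafilter.eventually_not]
      constructor
      · filter_upwards [h3 l] with m hm using hm.1
      · filter_upwards [h3 l] with m hm using hm.2
    have h6 := hiff (fun i => (((fun m => xs m i) : ℕ → M) : MU M))
    rw [hc φ (le_max_left _ _), hc ψ (le_max_right _ _)] at h6
    have h7 : ψ.Sat L.strW (sub (fun i => ((es i : ℕ → M) : MU M))
        (fun i => (((fun m => xs m i) : ℕ → M) : MU M))) (fun k j => star (Es k j)) := by
      apply pi_union hmonoU hψ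
      intro l
      exact pi_anti (hmonoU l (l0 + l) (by omega)) hψ _ _ (h5 l).2
    obtain ⟨l, hl⟩ := sigma_union hmonoU hφ _ _ (h6.2 h7)
    exact (h5 l).1 (sigma_mono (hmonoU l (l0 + l) (by omega)) hφ _ _ hl)
  obtain ⟨l, hl0, hl⟩ := huni
  -- the set is internal, of level `l + 1`
  have hset : defd L.strW (fun i => ((es i : ℕ → M) : MU M)) E n φ =
      star (fun m => defd (L.str l) (fun i => es i m) (fun k j => Es k j m) n φ) := by
    ext x
    obtain ⟨xs, rfl⟩ := exists_rep x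
    rw [mem_star]
    have h8 := hlos φ l xs
    have h9 : (φ.Sat L.strW (sub (fun i => ((es i : ℕ → M) : MU M))
        (fun i => ((xs i : ℕ → M) : MU M))) E ↔
        φ.Sat (L.strU l) (sub (fun i => ((es i : ℕ → M) : MU M))
        (fun i => ((xs i : ℕ → M) : MU M))) (fun k j => star (Es k j))) := by
      rw [hc φ (le_max_left _ _)]
      constructor
      · intro h
        rcases hl (fun i => ((xs i : ℕ → M) : MU M)) with h' | h'
        · exact h'
        · exfalso
          apply h'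
          have h10 := hiff (fun i => ((xs i : ℕ → M) : MU M))
          rw [hc φ (le_max_left _ _), hc ψ (le_max_right _ _)] at h10
          exact pi_anti (fun k => Set.subset_iUnion (fun l => L.SU l k) l) hψ _ _ (h10.1 h)
      · exact sigma_mono (fun k => Set.subset_iUnion (fun l => L.SU l k) l) hφ _ _
    exact h9.trans h8
  rw [hset]
  refine Set.mem_iUnion.2 ⟨l + 1, _, fun m => ?_, rfl⟩
  exact L.cl l φ _ _ n (fun k j => L.mono' hl0 k (hEs k j m))

theorem blv [Nonempty M] : BLV L.strW := by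
  intro X hX Y hY
  constructor
  · intro h
    simp only [strW, Set.mem_iUnion] at hX hY
    obtain ⟨l, hX⟩ := hX
    obtain ⟨l', hY⟩ := hY
    obtain ⟨R, hR, rfl⟩ := L.SU_mono (le_max_left l l') 0 hX
    obtain ⟨R', hR', rfl⟩ := L.SU_mono (le_max_right l l') 0 hY
    have h1 : L.delU (star R) = L.delU (star R') := h
    rw [L.delU_star, L.delU_star] at h1
    have h2 := Germ.coe_eq.1 h1
    have h3 : star R = star R' := by
      apply star_congr
      filter_upwards [h2] with n hn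
      exact L.inj _ _ (hR n) _ (hR' n) hn
    rw [h3]
    simp
  · intro h
    rw [Set.ext h]

theorem deltaBL0 [Nonempty M] : DeltaBL0 L.strW := by
  refine ⟨L.blv, ?_, L.deltaComp⟩
  intro φ hφ e E n hE
  exact L.deltaComp φ φ (.arith hφ) (.arith hφ) e E n hE (fun _ => Iff.rfl)

end Levels

/-! ### The failure of choice -/

/-- `F(v_0, v_1)` -/
def fF (i j : ℕ) : Fm := .rel 1 0 ![.var i, .var j]

/-- `X(v_i)` -/
def fX (i : ℕ) : Fm := .rel 0 0 ![.var i]

/-- If `F(v_0, y)` for some `y`, then `X = {y}` for some `y` with `F(v_0, y)`. -/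
def fCh : Fm :=
  .neg (.and (.exO 1 (fF 0 1)) (.neg (.exO 1 (.and (fF 0 1)
    (.neg (.exO 2 (.neg (.neg (.and (.neg (.and (fX 2) (.eq (.var 2) (.var 1))))
      (.neg (.and (.neg (fX 2)) (.neg (.eq (.var 2) (.var 1)))))))))))))) 

theorem vec2 {N : Type} (𝔖 : Str N) (e : ℕ → N) (E : RA N) (i j : ℕ) :
    (fun a : Fin 2 => ((![.var i, .var j] : Fin 2 → Tm) a).val 𝔖 e E) = ![e i, e j] := by
  funext a
  refine Fin.cases ?_ (fun b => ?_) a
  · rfl
  · obtain rfl : b = 0 := Subsingleton.elim _ _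
    rfl

theorem vec1 {N : Type} (𝔖 : Str N) (e : ℕ → N) (E : RA N) (i : ℕ) :
    (fun a : Fin 1 => ((![.var i] : Fin 1 → Tm) a).val 𝔖 e E) = ![e i] := by
  funext a
  obtain rfl : a = 0 := Subsingleton.elim _ _
  rfl

theorem val_var {N : Type} (𝔖 : Str N) (e : ℕ → N) (E : RA N) (i : ℕ) :
    (Tm.var i).val 𝔖 e E = e i := rfl

theorem fCh_arith : IsArith fCh := by
  simp [fCh, fF, fX, IsArith]

theorem fCh_sat {N : Type} (𝔖 : Str N) (e : ℕ → N) (E : RA N) :
    fCh.Sat 𝔖 e E ↔ ((∃ y, ![e 0, y] ∈ E 1 0) →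
      ∃ y, ![e 0, y] ∈ E 1 0 ∧ ∀ z, ![z] ∈ E 0 0 ↔ z = y) := by
  simp only [fCh, fF, fX, Fm.Sat, vec2, vec1, val_var]
  have h1 : ∀ y : N, update e 1 y 0 = e 0 := fun y => by simp
  have h2 : ∀ y z : N, update (update e 1 y) 2 z 2 = z := fun y z => by simp
  have h3 : ∀ y z : N, update (update e 1 y) 2 z 1 = y := fun y z => by simp
  have h4 : ∀ y : N, update e 1 y 1 = y := fun y => by simp
  simp only [h1, h2, h3, h4]
  constructor
  · intro h h'
    by_contra hc
    apply h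
    refine ⟨h', ?_⟩
    rintro ⟨y, hy, hz⟩
    apply hc
    refine ⟨y, hy, fun z => ?_⟩
    by_contra hzz
    apply hz
    refine ⟨z, ?_⟩
    tauto
  · rintro h ⟨h', hn⟩
    apply hn
    obtain ⟨y, hy, hz⟩ := h h'
    refine ⟨y, hy, ?_⟩
    rintro ⟨z, hzz⟩
    have := hz z
    tauto

theorem main : ∃ (M : Type) (𝔖 : Str M), DeltaBL0 𝔖 ∧ ¬ SigmaChoice 𝔖 := by
  obtain ⟨S, del, h1, h2, h3, h4, h5, h6⟩ := exists_levels
  let L : Levels M0 := ⟨S, del, h1, h2, h5, h6⟩
  have : Nonempty M0 := ⟨oo 0⟩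
  have hBL := L.deltaBL0
  refine ⟨MU M0, L.strW, hBL, ?_⟩
  intro hch
  -- the parameters
  have hF : star (fun _ : ℕ => R0 1) ∈ L.strW.S 1 :=
    Set.mem_iUnion.2 ⟨0, _, fun _ => h3, rfl⟩
  have hemp : ∀ k, star (fun _ : ℕ => (∅ : Set (Fin (k + 1) → M0))) ∈ L.strW.S k := fun k =>
    Set.mem_iUnion.2 ⟨0, _, fun _ => h2 0 k, rfl⟩
  let E : RA (MU M0) := upR (fun k _ => star (fun _ : ℕ => (∅ : Set (Fin (k + 1) → M0)))) 1 0
    (star (fun _ : ℕ => R0 1))
  have hE : Valid L.strW E :=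
    Valid.up (E := fun k _ => star (fun _ : ℕ => (∅ : Set (Fin (k + 1) → M0))))
      (fun k _ => hemp k) hF
  have hE1 : ∀ P : Set (Fin 1 → MU M0), upR E 0 0 P 1 0 = star (fun _ : ℕ => R0 1) := by
    intro P
    rw [upR_ne _ _ _ _ (by omega)]
    exact upR_self _ _ _ _
  have hE0 : ∀ P : Set (Fin 1 → MU M0), upR E 0 0 P 0 0 = P := fun P => upR_self _ _ _ _
  let e : ℕ → MU M0 := fun _ => (((fun _ => oo 0) : ℕ → M0) : MU M0)
  obtain ⟨R, hR, hRch⟩ := hch fCh (.arith fCh_arith) e E 0 0 hE (by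
    intro x
    by_cases hy : ∃ y, ![sub e x 0, y] ∈ star (fun _ : ℕ => R0 1)
    · obtain ⟨y, hy⟩ := hy
      -- the singleton `{y}`
      refine ⟨defd L.strW (fun _ => y) E 0 (.eq (.var 0) (.var 1)), ?_, ?_⟩
      · exact hBL.2.1 _ (by simp [IsArith]) _ _ _ hE
      · rw [fCh_sat, hE1, hE0]
        intro _
        refine ⟨y, hy, fun z => ?_⟩
        show sub (fun _ => y) ![z] 0 = sub (fun _ => y) ![z] 1 ↔ z = y
        simp [sub]
    · refine ⟨_, hemp 0, ?_⟩
      rw [fCh_sat, hE1]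
      intro h'
      exact absurd h' hy)
  -- `R` is internal
  obtain ⟨l, hR⟩ := Set.mem_iUnion.1 hR
  obtain ⟨ρ, hρ, rfl⟩ := hR
  have hsupp : ∀ n, ∃ m, Supp m (ρ n) := fun n => h4 l _ _ (hρ n)
  choose m hm using hsupp
  -- the index of a fibre moved by an element which fixes `ρ n`
  let x0 : MU M0 := (((fun n => oo (m n)) : ℕ → M0) : MU M0)
  -- the section `P` of `R`
  let P : Set (Fin 1 → MU M0) := {y | Fin.append ![x0] y ∈ star ρ}
  have happ : ∀ y : Fin 1 → MU M0, (Fin.append ![x0] y : Fin 2 → MU M0) = ![x0, y 0] := by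
    intro y
    funext a
    refine Fin.cases ?_ (fun b => ?_) a
    · rfl
    · obtain rfl : b = 0 := Subsingleton.elim _ _
      rfl
  have hPS : P ∈ L.strW.S 0 := by
    have h7 : Valid L.strW (upR E 1 1 (star ρ)) := hE.up (Set.mem_iUnion.2 ⟨l, ρ, hρ, rfl⟩)
    have h8 := hBL.2.1 (.rel 1 1 ![.var 1, .var 0]) (by simp [IsArith]) (fun _ => x0) _ 0 h7
    have h9 : defd L.strW (fun _ => x0) (upR E 1 1 (star ρ)) 0 (.rel 1 1 ![.var 1, .var 0]) = P := by
      ext y
      show (fun a : Fin 2 => ((![.var 1, .var 0] : Fin 2 → Tm) a).val L.strW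
        (sub (fun _ => x0) y) (upR E 1 1 (star ρ))) ∈ upR E 1 1 (star ρ) 1 1 ↔
        Fin.append ![x0] y ∈ star ρ
      rw [vec2, upR_self, happ]
      simp [sub]
    rw [← h9]; exact h8
  have h7 := hRch ![x0] P hPS (fun y => Iff.rfl)
  rw [fCh_sat, hE1, hE0] at h7
  have hx0 : sub e ![x0] 0 = x0 := by simp [sub]
  rw [hx0] at h7
  -- membership of pairs in internal relations
  have hpair : ∀ (ρ' : ℕ → Set (Fin 2 → M0)) (u w : ℕ → M0),
      (![((u : ℕ → M0) : MU M0), ((w : ℕ → M0) : MU M0)] ∈ star ρ' ↔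
        ∀ᶠ n in (UU : Filter ℕ), ![u n, w n] ∈ ρ' n) := by
    intro ρ' u w
    have h8 : (![((u : ℕ → M0) : MU M0), ((w : ℕ → M0) : MU M0)] : Fin 2 → MU M0) =
        fun i => (((![u, w] : Fin 2 → ℕ → M0) i : ℕ → M0) : MU M0) := by
      funext a
      refine Fin.cases ?_ (fun b => ?_) a
      · rfl
      · obtain rfl : b = 0 := Subsingleton.elim _ _
        rfl
    have h9 : ∀ n, (![u n, w n] : Fin 2 → M0) =
        fun i => (![u, w] : Fin 2 → ℕ → M0) i n := by
      intro n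
      funext a
      refine Fin.cases ?_ (fun b => ?_) a
      · rfl
      · obtain rfl : b = 0 := Subsingleton.elim _ _
        rfl
    rw [h8, mem_star]
    simp only [h9]
  obtain ⟨y, hy1, hy2⟩ := h7 ⟨(((fun n => aa (m n) 0) : ℕ → M0) : MU M0), by
    rw [hpair]
    exact Eventually.of_forall fun n => ⟨m n, 0, rfl, rfl⟩⟩
  obtain ⟨w, hw⟩ := exists_rep (fun _ : Unit => y)
  have hw : y = ((w () : ℕ → M0) : MU M0) := congrFun hw ()
  set w := w ()
  subst hw
  rw [hpair] at hy1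
  -- `y` is moved
  let w' : ℕ → M0 := fun n => act (Pi.single (m n) 1) (w n)
  have h8 : ![((w : ℕ → M0) : MU M0)] ∈ P := (hy2 _).2 rfl
  have h9 : ∀ᶠ n in (UU : Filter ℕ), ![oo (m n), w n] ∈ ρ n := by
    have h10 : (Fin.append ![x0] ![((w : ℕ → M0) : MU M0)] : Fin 2 → MU M0) ∈ star ρ := h8
    rw [happ] at h10
    exact (hpair ρ (fun n => oo (m n)) w).1 h10
  have h10 : ![((w' : ℕ → M0) : MU M0)] ∈ P := by
    show (Fin.append ![x0] ![((w' : ℕ → M0) : MU M0)] : Fin 2 → MU M0) ∈ star ρ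
    rw [happ]
    refine (hpair ρ (fun n => oo (m n)) w').2 ?_
    filter_upwards [h9] with n hn
    have h11 : actR (Pi.single (m n) 1) (ρ n) = ρ n := by
      apply hm n
      intro i hi
      exact Pi.single_eq_of_ne (by omega) 1
    rw [← h11]
    show (fun i => act (Pi.single (m n) 1) ((![oo (m n), w' n] : Fin 2 → M0) i)) ∈ ρ n
    have h12 : (fun i => act (Pi.single (m n) 1) ((![oo (m n), w' n] : Fin 2 → M0) i)) =
        ![oo (m n), w n] := by
      funext a
      refine Fin.cases ?_ (fun b => ?_) a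
      · exact act_oo _ _
      · obtain rfl : b = 0 := Subsingleton.elim _ _
        exact act_self _ _
    rw [h12]
    exact hn
  have h11 : ((w' : ℕ → M0) : MU M0) = ((w : ℕ → M0) : MU M0) := (hy2 _).1 h10
  have h12 := Germ.coe_eq.1 h11
  obtain ⟨n, h13, i, ε, h14, h15⟩ := (h12.and hy1).exists
  have h16 : oo (m n) = oo i := h14
  have h17 : w n = aa i ε := h15
  have h18 := oo_inj h16
  subst h18
  have h19 : act (Pi.single (m n) 1) (w n) = w n := h13
  rw [h17, act_aa, Pi.single_eq_same] at h19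
  have h20 := aa_inj h19
  have h21 : (1 : ZMod 2) = 0 := by
    have := congrArg (fun z => z - ε) h20
    simp at this
  exact absurd h21 (by decide)

end Pool.Agent.R601.BL
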