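import Pool.Agent.R601.BL.Syn

set_option autoImplicit false

/-! The group and its action; equivariant injections. -/

namespace Pool.Agent.R601.BL

open Function

/-- the group -/
abbrev G : Type := ℕ → ZMod 2

/-- the universe: pairs of two indices and a finite binary object -/
abbrev M0 : Type := (ℕ × ℕ) × (Σ n : ℕ, Set (Fin n → ZMod 2))

theorem G_add_self (g : G) : g + g = 0 := by
  funext i
  exact CharTwo.add_self_eq_zero (g i)

def res (n : ℕ) (g : G) : Fin n → ZMod 2 := fun i => g i

theorem res_add (n : ℕ) (g h : G) : res n (g + h) = res n g + res n h := rfl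

theorem res_zero (n : ℕ) : res n 0 = 0 := rfl

/-- the action -/
def act (g : G) (x : M0) : M0 := (x.1, ⟨x.2.1, {h | h + res x.2.1 g ∈ x.2.2}⟩)

theorem act_zero (x : M0) : act 0 x = x := by
  obtain ⟨i, n, A⟩ := x
  simp only [act, res_zero, add_zero]
  rfl

theorem act_act (g h : G) (x : M0) : act g (act h x) = act (g + h) x := by
  obtain ⟨i, n, A⟩ := x
  have : {k | k + res n g ∈ {k | k + res n h ∈ A}} = {k | k + res n (g + h) ∈ A} := by
    ext k
    show k + res n g + res n h ∈ A ↔ k + res n (g + h) ∈ A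
    rw [res_add, add_assoc]
  exact congrArg (fun B => ((i, ⟨n, B⟩) : M0)) this

theorem act_self (g : G) (x : M0) : act g (act g x) = x := by
  rw [act_act, G_add_self, act_zero]

theorem act_inj {g : G} {x y : M0} (h : act g x = act g y) : x = y := by
  rw [← act_self g x, h, act_self]

theorem act_supp (x : M0) : ∃ n, ∀ g : G, (∀ i < n, g i = 0) → act g x = x := by
  obtain ⟨i, n, A⟩ := x
  refine ⟨n, fun g hg => ?_⟩
  have : res n g = 0 := funext fun j => hg j j.2
  simp only [act, this, add_zero]
  rfl

variable {k : ℕ}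

/-- the action on relations -/
def actR (g : G) (R : Set (Fin (k + 1) → M0)) : Set (Fin (k + 1) → M0) :=
  {x | (fun i => act g (x i)) ∈ R}

theorem mem_actR {g : G} {R : Set (Fin (k + 1) → M0)} {x : Fin (k + 1) → M0} :
    x ∈ actR g R ↔ (fun i => act g (x i)) ∈ R := Iff.rfl

theorem actR_zero (R : Set (Fin (k + 1) → M0)) : actR 0 R = R := by
  ext x
  rw [mem_actR]
  simp only [act_zero]

theorem actR_actR (g h : G) (R : Set (Fin (k + 1) → M0)) :
    actR g (actR h R) = actR (g + h) R := by
  ext x
  rw [mem_actR, mem_actR, mem_actR]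
  simp only [act_act, add_comm g h]

theorem actR_self (g : G) (R : Set (Fin (k + 1) → M0)) : actR g (actR g R) = R := by
  rw [actR_actR, G_add_self, actR_zero]

/-- finite supports -/
def Supp (n : ℕ) (R : Set (Fin (k + 1) → M0)) : Prop :=
  ∀ g : G, (∀ i < n, g i = 0) → actR g R = R

theorem Supp.mono {n m : ℕ} {R : Set (Fin (k + 1) → M0)} (h : Supp n R) (hnm : n ≤ m) :
    Supp m R := fun g hg => h g (fun i hi => hg i (by omega))

theorem supp_actR {n : ℕ} {R : Set (Fin (k + 1) → M0)} (h : G) :
    Supp n (actR h R) ↔ Supp n R := by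
  constructor
  · intro hs g hg
    have := hs g hg
    rw [actR_actR, add_comm g h, ← actR_actR] at this
    rw [← actR_self h (actR g R), this, actR_self]
  · intro hs g hg
    rw [actR_actR, add_comm g h, ← actR_actR, hs g hg]

/-- **Equivariant injections**: a countable family of sets with finite supports, closed under the
action, can be mapped injectively and equivariantly into the part of the universe with first index
`s`. -/
theorem exists_equiv_inj (s : ℕ) (Y : Set (Set (Fin 1 → M0))) (hc : Y.Countable)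
    (hcl : ∀ X ∈ Y, ∀ g : G, actR g X ∈ Y) (hs : ∀ X ∈ Y, ∃ n, Supp n X) :
    ∃ f : Set (Fin 1 → M0) → M0, (∀ X ∈ Y, (f X).1.1 = s) ∧
      (∀ X ∈ Y, ∀ g : G, f (actR g X) = act g (f X)) ∧ Set.InjOn f Y := by
  classical
  obtain ⟨ι, hι⟩ := Set.countable_iff_exists_injOn.1 hc
  -- the least index in the orbit
  let idx : Set (Fin 1 → M0) → ℕ := fun X => sInf (Set.range fun g : G => ι (actR g X))
  have idx_act : ∀ X (g : G), idx (actR g X) = idx X := by
    intro X g
    simp only [idx]
    congr 1
    ext m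
    constructor
    · rintro ⟨h, rfl⟩; exact ⟨h + g, by simp only [actR_actR]⟩
    · rintro ⟨h, rfl⟩
      refine ⟨h + g, ?_⟩
      simp only [actR_actR, add_assoc, G_add_self, add_zero]
  have idx_mem : ∀ X, ∃ g : G, ι (actR g X) = idx X := by
    intro X
    have : idx X ∈ Set.range fun g : G => ι (actR g X) := Nat.sInf_mem ⟨_, 0, rfl⟩
    exact this
  let nn : Set (Fin 1 → M0) → ℕ := fun X => sInf {n | Supp n X}
  have nn_act : ∀ X (g : G), nn (actR g X) = nn X := by
    intro X g
    simp only [nn, supp_actR]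
  have nn_supp : ∀ X ∈ Y, Supp (nn X) X := by
    intro X hX
    exact Nat.sInf_mem (s := {n | Supp n X}) (hs X hX)
  let f : Set (Fin 1 → M0) → M0 := fun X =>
    ((s, idx X), ⟨nn X, {h | ∃ g : G, res (nn X) g = h ∧ ι (actR g X) = idx X}⟩)
  have hf : ∀ X, f X =
      ((s, idx X), ⟨nn X, {h | ∃ g : G, res (nn X) g = h ∧ ι (actR g X) = idx X}⟩) :=
    fun X => rfl
  have heq : ∀ X ∈ Y, ∀ g : G, f (actR g X) = act g (f X) := by
    intro X hX g
    rw [hf, hf, idx_act, nn_act]
    simp only [act]
    congr 2
    ext h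
    constructor
    · rintro ⟨g', h1, h2⟩
      refine ⟨g' + g, by rw [res_add, h1], ?_⟩
      rw [← actR_actR]; exact h2
    · rintro ⟨g', h1, h2⟩
      refine ⟨g' + g, ?_, ?_⟩
      · rw [res_add, h1, add_assoc, ← res_add, G_add_self, res_zero, add_zero]
      · rw [actR_actR, add_assoc, G_add_self, add_zero]; exact h2
  refine ⟨f, fun X _ => rfl, heq, ?_⟩
  intro X hX X' hX' hff
  -- same orbit
  have h1 : idx X = idx X' := by
    have := congrArg (fun x : M0 => x.1.2) hff
    exact this
  obtain ⟨g, hg⟩ := idx_mem X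
  obtain ⟨g', hg'⟩ := idx_mem X'
  have h2 : actR g X = actR g' X' := hι (hcl X hX g) (hcl X' hX' g') (by rw [hg, hg', h1])
  have h3 : X' = actR (g' + g) X := by
    rw [← actR_actR, h2, actR_self]
  set q := g' + g with hq
  rw [h3, heq X hX q, hf] at hff
  simp only [act, Prod.mk.injEq, true_and, Sigma.mk.injEq, heq_eq_eq] at hff
  have h4 : res (nn X) g ∈ {h | ∃ g : G, res (nn X) g = h ∧ ι (actR g X) = idx X} :=
    ⟨g, rfl, hg⟩
  rw [hff] at h4
  obtain ⟨g2, h5, h6⟩ := h4
  have h7 : actR g2 X = actR g X := hι (hcl X hX g2) (hcl X hX g) (by rw [h6, hg])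
  -- `g2 = g + q` on the support
  have h8 : actR (g2 + (g + q)) X = X := by
    apply nn_supp X hX
    intro i hi
    have := congrFun h5 ⟨i, hi⟩
    simp only [res, Pi.add_apply] at this
    simp only [Pi.add_apply, this]
    exact CharTwo.add_self_eq_zero (g i + q i)
  have h9 : actR g2 X = actR (g + q) X := by
    have : actR (g + q) (actR (g2 + (g + q)) X) = actR (g + q) X := by rw [h8]
    rw [actR_actR, ← add_assoc, add_comm (g + q) g2, add_assoc, G_add_self, add_zero] at this
    exact this
  rw [h7, ← actR_actR] at h9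
  have h10 := congrArg (actR g) h9
  rw [actR_self, actR_self] at h10
  rw [h3, ← h10]

end Pool.Agent.R601.BL
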