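import Pool.Agent.R601.BL.Defs

set_option autoImplicit false

namespace Pool.Agent.R601.BL

open Function

theorem upR_self {M : Type} (E : RA M) (k j : ℕ) (R : Set (Fin (k + 1) → M)) :
    upR E k j R k j = R := by simp [upR]

theorem upR_ne {M : Type} (E : RA M) (k j : ℕ) (R : Set (Fin (k + 1) → M)) {k' j' : ℕ}
    (h : ¬ (k' = k ∧ j' = j)) : upR E k j R k' j' = E k' j' := by
  unfold upR
  by_cases hk : k' = k
  · subst hk
    have : j' ≠ j := fun h' => h ⟨rfl, h'⟩
    simp [this]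
  · rw [update_of_ne hk]

/-- A property which holds for the new value and the old values holds for the updated
assignment. -/
theorem upR_cases {M : Type} {E : RA M} {k j : ℕ} {R : Set (Fin (k + 1) → M)}
    (p : (k' : ℕ) → ℕ → Set (Fin (k' + 1) → M) → Prop) (h1 : p k j R)
    (h2 : ∀ k' j', p k' j' (E k' j')) : ∀ k' j', p k' j' (upR E k j R k' j') := by
  intro k' j'
  by_cases h : k' = k ∧ j' = j
  · obtain ⟨rfl, rfl⟩ := h
    rw [upR_self]
    exact h1
  · rw [upR_ne E k j R h]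
    exact h2 k' j'

theorem Valid.up {M : Type} {𝔖 : Str M} {E : RA M} (h : Valid 𝔖 E) {k j : ℕ}
    {R : Set (Fin (k + 1) → M)} (hR : R ∈ 𝔖.S k) : Valid 𝔖 (upR E k j R) :=
  upR_cases (fun k' _ X => X ∈ 𝔖.S k') hR h

/-- bounds for the indices of the variables -/
def Tm.bd : Tm → ℕ
  | .var i => i + 1
  | .del j => j + 1

def Fm.bd : Fm → ℕ
  | .eq s t => max s.bd t.bd
  | .rel k j ts => max (max (k + 1) (j + 1)) (Finset.univ.sup fun i => (ts i).bd)
  | .neg φ => φ.bd
  | .and φ ψ => max φ.bd ψ.bd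
  | .exO i φ => max (i + 1) φ.bd
  | .exR k j φ => max (max (k + 1) (j + 1)) φ.bd

theorem Tm.val_congr {M : Type} (𝔖 : Str M) {e e' : ℕ → M} {E E' : RA M} {N : ℕ}
    (he : ∀ i < N, e i = e' i) (hE : ∀ k < N, ∀ j < N, E k j = E' k j) (t : Tm) (ht : t.bd ≤ N) :
    t.val 𝔖 e E = t.val 𝔖 e' E' := by
  cases t with
  | var i => exact he i ht
  | del j =>
      have h1 : j < N := ht
      simp only [Tm.val]
      rw [hE 0 (by omega) j h1]

theorem Fm.sat_congr {M : Type} (𝔖 : Str M) {N : ℕ} (φ : Fm) : ∀ (e e' : ℕ → M) (E E' : RA M),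
    φ.bd ≤ N → (∀ i < N, e i = e' i) → (∀ k < N, ∀ j < N, E k j = E' k j) →
    (φ.Sat 𝔖 e E ↔ φ.Sat 𝔖 e' E') := by
  induction φ with
  | eq s t =>
      intro e e' E E' h he hE
      simp only [Fm.bd, max_le_iff] at h
      simp only [Fm.Sat]
      rw [Tm.val_congr 𝔖 he hE s h.1, Tm.val_congr 𝔖 he hE t h.2]
  | rel k j ts =>
      intro e e' E E' h he hE
      simp only [Fm.bd, max_le_iff, Finset.sup_le_iff] at h
      simp only [Fm.Sat]
      rw [hE k (by omega) j (by omega)]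
      have : (fun i => (ts i).val 𝔖 e E) = fun i => (ts i).val 𝔖 e' E' :=
        funext fun i => Tm.val_congr 𝔖 he hE _ (h.2 i (Finset.mem_univ i))
      rw [this]
  | neg φ ih =>
      intro e e' E E' h he hE
      simp only [Fm.Sat]
      rw [ih e e' E E' h he hE]
  | and φ ψ ih1 ih2 =>
      intro e e' E E' h he hE
      simp only [Fm.bd, max_le_iff] at h
      simp only [Fm.Sat]
      rw [ih1 e e' E E' h.1 he hE, ih2 e e' E E' h.2 he hE]
  | exO i φ ih =>
      intro e e' E E' h he hE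
      simp only [Fm.bd, max_le_iff] at h
      simp only [Fm.Sat]
      apply exists_congr; intro a
      apply ih _ _ _ _ h.2 _ hE
      intro i' hi'
      by_cases hii : i' = i
      · subst hii; simp
      · simp [hii, he i' hi']
  | exR k j φ ih =>
      intro e e' E E' h he hE
      simp only [Fm.bd, max_le_iff] at h
      simp only [Fm.Sat]
      apply exists_congr; intro R
      apply and_congr_right; intro _
      apply ih _ _ _ _ h.2 he
      intro k' hk' j' hj'
      by_cases hh : k' = k ∧ j' = j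
      · obtain ⟨rfl, rfl⟩ := hh
        rw [upR_self, upR_self]
      · rw [upR_ne E k j R hh, upR_ne E' k j R hh]
        exact hE k' hk' j' hj'

/-- Satisfaction depends only on the values of `∂` on `S 0`. -/
theorem Fm.sat_congr_del {M : Type} (S : (k : ℕ) → Set (Set (Fin (k + 1) → M)))
    (d d' : Set (Fin 1 → M) → M) (hd : ∀ X ∈ S 0, d X = d' X) (φ : Fm) :
    ∀ (e : ℕ → M) (E : RA M), (∀ j, E 0 j ∈ S 0) →
    (φ.Sat ⟨S, d⟩ e E ↔ φ.Sat ⟨S, d'⟩ e E) := by
  have hval : ∀ (t : Tm) (e : ℕ → M) (E : RA M), (∀ j, E 0 j ∈ S 0) →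
      t.val ⟨S, d⟩ e E = t.val ⟨S, d'⟩ e E := by
    intro t e E hE
    cases t with
    | var i => rfl
    | del j => exact hd _ (hE j)
  induction φ with
  | eq s t => intro e E hE; simp only [Fm.Sat, hval s e E hE, hval t e E hE]
  | rel k j ts => intro e E hE; simp only [Fm.Sat, hval _ e E hE]
  | neg φ ih => intro e E hE; simp only [Fm.Sat, ih e E hE]
  | and φ ψ ih1 ih2 => intro e E hE; simp only [Fm.Sat, ih1 e E hE, ih2 e E hE]
  | exO i φ ih => intro e E hE; simp only [Fm.Sat, ih _ E hE]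
  | exR k j φ ih =>
      intro e E hE
      simp only [Fm.Sat]
      apply exists_congr; intro R
      apply and_congr_right; intro hR
      apply ih
      intro j'
      by_cases hh : 0 = k ∧ j' = j
      · obtain ⟨h0, rfl⟩ := hh
        subst h0
        rw [upR_self]; exact hR
      · rw [upR_ne E k j R hh]; exact hE j'

/-! ### Countability of the set of formulas -/

instance : Countable Tm := by
  apply Injective.countable (f := fun t : Tm => match t with
    | .var i => (Sum.inl i : ℕ ⊕ ℕ)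
    | .del j => Sum.inr j)
  intro s t h
  cases s <;> cases t <;> simp at h <;> rw [h]

def layer : ℕ → Set Fm
  | 0 => ∅
  | n + 1 => (Set.range fun p : Tm × Tm => Fm.eq p.1 p.2) ∪
      (Set.range fun p : (Σ k : ℕ, ℕ × (Fin (k + 1) → Tm)) => Fm.rel p.1 p.2.1 p.2.2) ∪
      (Fm.neg '' layer n) ∪ ((fun p : Fm × Fm => Fm.and p.1 p.2) '' (layer n ×ˢ layer n)) ∪
      (⋃ i : ℕ, Fm.exO i '' layer n) ∪ (⋃ p : ℕ × ℕ, Fm.exR p.1 p.2 '' layer n)

theorem layer_countable (n : ℕ) : (layer n).Countable := by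
  induction n with
  | zero => exact Set.countable_empty
  | succ n ih =>
      refine ((((Set.Countable.union (Set.countable_range _) (Set.countable_range _)).union
        (ih.image _)).union ((ih.prod ih).image _)).union ?_).union ?_
      · exact Set.countable_iUnion fun i => ih.image _
      · exact Set.countable_iUnion fun i => ih.image _

theorem layer_mono {n m : ℕ} (h : n ≤ m) : layer n ⊆ layer m := by
  have step : ∀ n, layer n ⊆ layer (n + 1) := by
    intro n
    induction n with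
    | zero => intro φ h; exact h.elim
    | succ n ih =>
        rintro φ (((((h | h) | h) | h) | h) | h)
        · exact Or.inl (Or.inl (Or.inl (Or.inl (Or.inl h))))
        · exact Or.inl (Or.inl (Or.inl (Or.inl (Or.inr h))))
        · obtain ⟨ψ, h1, rfl⟩ := h
          exact Or.inl (Or.inl (Or.inl (Or.inr ⟨ψ, ih h1, rfl⟩)))
        · obtain ⟨p, h1, rfl⟩ := h
          exact Or.inl (Or.inl (Or.inr ⟨p, ⟨ih h1.1, ih h1.2⟩, rfl⟩))
        · rw [Set.mem_iUnion] at h
          obtain ⟨i, ψ, h1, rfl⟩ := h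
          exact Or.inl (Or.inr (Set.mem_iUnion.2 ⟨i, ψ, ih h1, rfl⟩))
        · rw [Set.mem_iUnion] at h
          obtain ⟨i, ψ, h1, rfl⟩ := h
          exact Or.inr (Set.mem_iUnion.2 ⟨i, ψ, ih h1, rfl⟩)
  induction h with
  | refl => exact subset_rfl
  | step _ ih => exact ih.trans (step _)

theorem exists_layer (φ : Fm) : ∃ n, φ ∈ layer n := by
  induction φ with
  | eq s t => exact ⟨1, Or.inl (Or.inl (Or.inl (Or.inl (Or.inl ⟨(s, t), rfl⟩))))⟩
  | rel k j ts => exact ⟨1, Or.inl (Or.inl (Or.inl (Or.inl (Or.inr ⟨⟨k, j, ts⟩, rfl⟩))))⟩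
  | neg φ ih =>
      obtain ⟨n, h⟩ := ih
      exact ⟨n + 1, Or.inl (Or.inl (Or.inl (Or.inr ⟨φ, h, rfl⟩)))⟩
  | and φ ψ ih1 ih2 =>
      obtain ⟨n, h⟩ := ih1
      obtain ⟨m, h'⟩ := ih2
      exact ⟨max n m + 1, Or.inl (Or.inl (Or.inr ⟨(φ, ψ), ⟨layer_mono (le_max_left _ _) h,
        layer_mono (le_max_right _ _) h'⟩, rfl⟩))⟩
  | exO i φ ih =>
      obtain ⟨n, h⟩ := ih
      exact ⟨n + 1, Or.inl (Or.inr (Set.mem_iUnion.2 ⟨i, φ, h, rfl⟩))⟩
  | exR k j φ ih =>
      obtain ⟨n, h⟩ := ih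
      exact ⟨n + 1, Or.inr (Set.mem_iUnion.2 ⟨(k, j), φ, h, rfl⟩)⟩

instance : Countable Fm := by
  rw [← Set.countable_univ_iff]
  have : (Set.univ : Set Fm) = ⋃ n, layer n := by
    ext φ
    simp only [Set.mem_univ, Set.mem_iUnion, true_iff]
    exact exists_layer φ
  rw [this]
  exact Set.countable_iUnion layer_countable

/-- The relations defined over a countable structure with countably many relations are
countably many. -/
theorem defd_countable {M : Type} [Countable M] [hM : Nonempty M] (𝔖 : Str M)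
    (hS : ∀ k, (𝔖.S k).Countable) (n : ℕ) :
    {R : Set (Fin (n + 1) → M) | ∃ (φ : Fm) (e : ℕ → M) (E : RA M), Valid 𝔖 E ∧
      R = defd 𝔖 e E n φ}.Countable := by
  obtain ⟨m0⟩ := hM
  have hS' : ∀ k, Countable (𝔖.S k) := fun k => (hS k).to_subtype
  let T : Type := Fm × (Σ N : ℕ, (Fin N → M) × ((k : Fin N) → Fin N → 𝔖.S k))
  let F : T → Set (Fin (n + 1) → M) := fun p =>
    defd 𝔖 (fun i => if h : i < p.2.1 then p.2.2.1 ⟨i, h⟩ else m0)
      (fun k j => if h : k < p.2.1 ∧ j < p.2.1 then (p.2.2.2 ⟨k, h.1⟩ ⟨j, h.2⟩).1 else ∅) n p.1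
  apply (Set.countable_range F).mono
  rintro R ⟨φ, e, E, hE, rfl⟩
  refine ⟨(φ, ⟨max φ.bd (n + 1), fun i => e i, fun k j => ⟨E k j, hE k j⟩⟩), ?_⟩
  ext x
  show Fm.Sat _ _ _ _ ↔ Fm.Sat _ _ _ _
  apply Fm.sat_congr 𝔖 (N := max φ.bd (n + 1)) φ _ _ _ _ (le_max_left _ _)
  · intro i hi
    unfold sub
    by_cases h : i < n + 1
    · rw [dif_pos h, dif_pos h]
    · rw [dif_neg h, dif_neg h]
      exact dif_pos hi
  · intro k hk j hj
    exact dif_pos (c := k < max φ.bd (n + 1) ∧ j < max φ.bd (n + 1)) ⟨hk, hj⟩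

end Pool.Agent.R601.BL
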