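import Pool.Agent.R601.BL.Level

set_option autoImplicit false

/-! Ultrapowers of structures with levels. -/

namespace Pool.Agent.R601.BL

open Function Filter

/-- the ultrafilter -/
noncomputable abbrev UU : Ultrafilter ℕ := hyperfilter ℕ

/-- the ultrapower of the object sort -/
abbrev MU (M : Type) : Type := Germ (UU : Filter ℕ) M

variable {M : Type} {k : ℕ}

/-- the internal relation given by a sequence of relations -/
def star (R : ℕ → Set (Fin (k + 1) → M)) : Set (Fin (k + 1) → MU M) :=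
  {y | ∃ x : Fin (k + 1) → ℕ → M, (∀ i, y i = (x i : MU M)) ∧
    ∀ᶠ n in (UU : Filter ℕ), (fun i => x i n) ∈ R n}

theorem mem_star {R : ℕ → Set (Fin (k + 1) → M)} {x : Fin (k + 1) → ℕ → M} :
    (fun i => ((x i : ℕ → M) : MU M)) ∈ star R ↔
      ∀ᶠ n in (UU : Filter ℕ), (fun i => x i n) ∈ R n := by
  constructor
  · rintro ⟨x', h1, h2⟩
    have h3 : ∀ i, ∀ᶠ n in (UU : Filter ℕ), x i n = x' i n := fun i => Germ.coe_eq.1 (h1 i)
    filter_upwards [h2, eventually_all.2 h3] with n h4 h5
    have : (fun i => x i n) = fun i => x' i n := funext h5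
    rw [this]; exact h4
  · intro h
    exact ⟨x, fun _ => rfl, h⟩

theorem exists_rep {ι : Type} (y : ι → MU M) :
    ∃ x : ι → ℕ → M, y = fun i => ((x i : ℕ → M) : MU M) := by
  have h : ∀ i, ∃ x : ℕ → M, y i = (x : MU M) := fun i =>
    Germ.inductionOn (y i) (fun f => ⟨f, rfl⟩)
  choose x hx using h
  exact ⟨x, funext hx⟩

theorem star_congr {R R' : ℕ → Set (Fin (k + 1) → M)}
    (h : ∀ᶠ n in (UU : Filter ℕ), R n = R' n) : star R = star R' := by
  ext y
  obtain ⟨x, rfl⟩ := exists_rep y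
  rw [mem_star, mem_star]
  constructor
  · intro h1; filter_upwards [h, h1] with n h2 h3; rw [← h2]; exact h3
  · intro h1; filter_upwards [h, h1] with n h2 h3; rw [h2]; exact h3

theorem star_eq [hM : Nonempty M] {R R' : ℕ → Set (Fin (k + 1) → M)} (h : star R = star R') :
    ∀ᶠ n in (UU : Filter ℕ), R n = R' n := by
  by_contra hc
  rw [← Ultrafilter.eventually_not] at hc
  have h1 : ∀ n, ∃ x : Fin (k + 1) → M, ¬ R n = R' n → ¬ (x ∈ R n ↔ x ∈ R' n) := by
    intro n
    by_cases hn : R n = R' n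
    · exact ⟨fun _ => hM.some, fun h' => absurd hn h'⟩
    · rw [Set.ext_iff] at hn
      push Not at hn
      obtain ⟨x, hx⟩ := hn
      exact ⟨x, fun _ => by tauto⟩
  choose x hx using h1
  have h2 : (fun i => (((fun n => x n i) : ℕ → M) : MU M)) ∈ star R ↔
      (fun i => (((fun n => x n i) : ℕ → M) : MU M)) ∈ star R' := by rw [h]
  rw [mem_star, mem_star] at h2
  by_cases h3 : ∀ᶠ n in (UU : Filter ℕ), x n ∈ R n
  · have h4 := h2.1 h3
    obtain ⟨n, h5, h6, h7⟩ := (hc.and (h3.and h4)).exists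
    exact hx n h5 ⟨fun _ => h7, fun _ => h6⟩
  · have h4 : ¬ ∀ᶠ n in (UU : Filter ℕ), x n ∈ R' n := fun h' => h3 (h2.2 h')
    rw [← Ultrafilter.eventually_not] at h3 h4
    obtain ⟨n, h5, h6, h7⟩ := (hc.and (h3.and h4)).exists
    exact hx n h5 ⟨fun h' => absurd h' h6, fun h' => absurd h' h7⟩

/-- Levels of relations, with a function `∂`. -/
structure Levels (M : Type) where
  S : ℕ → (k : ℕ) → Set (Set (Fin (k + 1) → M))
  del : Set (Fin 1 → M) → M
  mono : ∀ l k, S l k ⊆ S (l + 1) k
  empty : ∀ l k, ∅ ∈ S l k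
  inj : ∀ l, ∀ X ∈ S l 0, ∀ Y ∈ S l 0, del X = del Y → X = Y
  cl : ∀ (l : ℕ) (φ : Fm) (e : ℕ → M) (E : RA M) (n : ℕ), Valid ⟨S l, del⟩ E →
    defd ⟨S l, del⟩ e E n φ ∈ S (l + 1) n

namespace Levels

variable (L : Levels M)

theorem mono' {l m : ℕ} (h : l ≤ m) (k : ℕ) : L.S l k ⊆ L.S m k := by
  induction h with
  | refl => exact subset_rfl
  | step _ ih => exact ih.trans (L.mono _ k)

/-- the structure of level `l` -/
def str (l : ℕ) : Str M := ⟨L.S l, L.del⟩

/-- the internal relations of level `l` -/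
def SU (l k : ℕ) : Set (Set (Fin (k + 1) → MU M)) :=
  {X | ∃ R : ℕ → Set (Fin (k + 1) → M), (∀ n, R n ∈ L.S l k) ∧ X = star R}

theorem SU_mono {l m : ℕ} (h : l ≤ m) (k : ℕ) : L.SU l k ⊆ L.SU m k := by
  rintro X ⟨R, h1, rfl⟩
  exact ⟨R, fun n => L.mono' h k (h1 n), rfl⟩

open Classical in
/-- the function `∂` on the internal relations -/
noncomputable def delU (X : Set (Fin 1 → MU M)) : MU M :=
  if h : ∃ R : ℕ → Set (Fin 1 → M), X = star R then
    (((fun n => L.del (h.choose n)) : ℕ → M) : MU M)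
  else (((fun _ => L.del ∅) : ℕ → M) : MU M)

theorem delU_star [Nonempty M] (R : ℕ → Set (Fin 1 → M)) :
    L.delU (star R) = (((fun n => L.del (R n)) : ℕ → M) : MU M) := by
  have h : ∃ R' : ℕ → Set (Fin 1 → M), star R = star R' := ⟨R, rfl⟩
  unfold delU
  rw [dif_pos h]
  have h1 := star_eq h.choose_spec
  apply Germ.coe_eq.2
  filter_upwards [h1] with n hn
  rw [hn]

/-- the ultrapower of level `l` -/
noncomputable def strU (l : ℕ) : Str (MU M) := ⟨L.SU l, L.delU⟩

/-- the union of the levels of the ultrapower -/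
noncomputable def strW : Str (MU M) := ⟨fun k => ⋃ l, L.SU l k, L.delU⟩

theorem val_U [Nonempty M] (l : ℕ) (t : Tm) (e : ℕ → ℕ → M)
    (E : (k : ℕ) → ℕ → ℕ → Set (Fin (k + 1) → M)) :
    t.val (L.strU l) (fun i => ((e i : ℕ → M) : MU M)) (fun k j => star (E k j)) =
      (((fun n => t.val (L.str l) (fun i => e i n) (fun k j => E k j n)) : ℕ → M) : MU M) := by
  cases t with
  | var i => rfl
  | del j => exact L.delU_star (E 0 j)

theorem los [Nonempty M] (l : ℕ) (φ : Fm) : ∀ (e : ℕ → ℕ → M)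
    (E : (k : ℕ) → ℕ → ℕ → Set (Fin (k + 1) → M)),
    (φ.Sat (L.strU l) (fun i => ((e i : ℕ → M) : MU M)) (fun k j => star (E k j)) ↔
      ∀ᶠ n in (UU : Filter ℕ), φ.Sat (L.str l) (fun i => e i n) (fun k j => E k j n)) := by
  induction φ with
  | eq s t =>
      intro e E
      simp only [Fm.Sat, L.val_U]
      exact Germ.coe_eq
  | rel k j ts =>
      intro e E
      simp only [Fm.Sat, L.val_U]
      exact mem_star
  | neg φ ih =>
      intro e E
      simp only [Fm.Sat, ih]
      rw [← Ultrafilter.eventually_not]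
  | and φ ψ ih1 ih2 =>
      intro e E
      simp only [Fm.Sat, ih1, ih2]
      exact eventually_and.symm
  | exO i φ ih =>
      intro e E
      simp only [Fm.Sat]
      have key : ∀ α : ℕ → M, (φ.Sat (L.strU l) (update (fun i => ((e i : ℕ → M) : MU M)) i
          (α : MU M)) (fun k j => star (E k j)) ↔ ∀ᶠ n in (UU : Filter ℕ),
          φ.Sat (L.str l) (update (fun i => e i n) i (α n)) (fun k j => E k j n)) := by
        intro α
        have h1 : update (fun i => ((e i : ℕ → M) : MU M)) i (α : MU M) =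
            fun j => ((update e i α j : ℕ → M) : MU M) := by
          funext j
          by_cases hj : j = i
          · subst hj; simp
          · simp [hj]
        have h2 : ∀ n, update (fun i => e i n) i (α n) = fun j => update e i α j n := by
          intro n
          funext j
          by_cases hj : j = i
          · subst hj; simp
          · simp [hj]
        rw [h1, ih]
        simp only [h2]
      constructor
      · rintro ⟨a, ha⟩
        obtain ⟨α, hα⟩ := exists_rep (fun _ : Unit => a)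
        have hα : a = ((α () : ℕ → M) : MU M) := congrFun hα ()
        rw [hα, key] at ha
        filter_upwards [ha] with n hn
        exact ⟨_, hn⟩
      · intro h
        classical
        have h1 : ∀ n, ∃ a : M, (∃ a, φ.Sat (L.str l) (update (fun i => e i n) i a)
            (fun k j => E k j n)) → φ.Sat (L.str l) (update (fun i => e i n) i a)
            (fun k j => E k j n) := by
          intro n
          by_cases hn : ∃ a, φ.Sat (L.str l) (update (fun i => e i n) i a) (fun k j => E k j n)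
          · obtain ⟨a, ha⟩ := hn; exact ⟨a, fun _ => ha⟩
          · exact ⟨Classical.arbitrary M, fun h' => absurd h' hn⟩
        choose α hα using h1
        refine ⟨(α : MU M), (key α).2 ?_⟩
        filter_upwards [h] with n hn
        exact hα n hn
  | exR k j φ ih =>
      intro e E
      simp only [Fm.Sat]
      have key : ∀ ρ : ℕ → Set (Fin (k + 1) → M),
          (φ.Sat (L.strU l) (fun i => ((e i : ℕ → M) : MU M))
            (upR (fun k j => star (E k j)) k j (star ρ)) ↔ ∀ᶠ n in (UU : Filter ℕ),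
          φ.Sat (L.str l) (fun i => e i n) (upR (fun k j => E k j n) k j (ρ n))) := by
        intro ρ
        have h1 : upR (fun k j => star (E k j)) k j (star ρ) =
            fun k' j' => star (fun n => upR (fun k j => E k j n) k j (ρ n) k' j') := by
          funext k' j'
          by_cases hh : k' = k ∧ j' = j
          · obtain ⟨rfl, rfl⟩ := hh
            simp only [upR_self]
          · simp only [upR_ne _ _ _ _ hh]
        rw [h1, ih e (fun k' j' n => upR (fun k j => E k j n) k j (ρ n) k' j')]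
      constructor
      · rintro ⟨R, ⟨ρ, h1, rfl⟩, h2⟩
        rw [key] at h2
        filter_upwards [h2] with n hn
        exact ⟨ρ n, h1 n, hn⟩
      · intro h
        have h1 : ∀ n, ∃ R ∈ L.S l k, (∃ R ∈ L.S l k, φ.Sat (L.str l) (fun i => e i n)
            (upR (fun k j => E k j n) k j R)) → φ.Sat (L.str l) (fun i => e i n)
            (upR (fun k j => E k j n) k j R) := by
          intro n
          by_cases hn : ∃ R ∈ L.S l k, φ.Sat (L.str l) (fun i => e i n)
            (upR (fun k j => E k j n) k j R)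
          · obtain ⟨R, h1, h2⟩ := hn; exact ⟨R, h1, fun _ => h2⟩
          · exact ⟨∅, L.empty l k, fun h' => absurd h' hn⟩
        choose ρ hρ1 hρ2 using h1
        refine ⟨star ρ, ⟨ρ, hρ1, rfl⟩, (key ρ).2 ?_⟩
        filter_upwards [h] with n hn
        exact hρ2 n hn

end Levels

/-! ### Monotonicity in the families of relations -/

theorem arith_iff {N : Type} {S S' : (k : ℕ) → Set (Set (Fin (k + 1) → N))}
    {d : Set (Fin 1 → N) → N} (φ : Fm) (hφ : IsArith φ) : ∀ (e : ℕ → N) (E : RA N),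
    (φ.Sat ⟨S, d⟩ e E ↔ φ.Sat ⟨S', d⟩ e E) := by
  have hval : ∀ (t : Tm) (e : ℕ → N) (E : RA N), t.val ⟨S, d⟩ e E = t.val ⟨S', d⟩ e E := by
    intro t e E
    cases t <;> rfl
  induction φ with
  | eq s t => intro e E; simp only [Fm.Sat, hval]
  | rel k j ts => intro e E; simp only [Fm.Sat, hval]
  | neg φ ih => intro e E; simp only [Fm.Sat, ih hφ e E]
  | and φ ψ ih1 ih2 => intro e E; simp only [Fm.Sat, ih1 hφ.1 e E, ih2 hφ.2 e E]
  | exO i φ ih => intro e E; simp only [Fm.Sat, ih hφ]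
  | exR k j φ ih => exact hφ.elim

theorem sat_allR {N : Type} (𝔖 : Str N) (e : ℕ → N) (E : RA N) (k j : ℕ) (φ : Fm) :
    (Fm.allR k j φ).Sat 𝔖 e E ↔ ∀ R ∈ 𝔖.S k, φ.Sat 𝔖 e (upR E k j R) := by
  simp only [Fm.allR, Fm.Sat]
  push Not
  rfl

theorem sigma_mono {N : Type} {S S' : (k : ℕ) → Set (Set (Fin (k + 1) → N))}
    {d : Set (Fin 1 → N) → N} (hS : ∀ k, S k ⊆ S' k) {φ : Fm} (hφ : IsSigma φ) :
    ∀ (e : ℕ → N) (E : RA N), φ.Sat ⟨S, d⟩ e E → φ.Sat ⟨S', d⟩ e E := by
  induction hφ with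
  | arith h => intro e E; exact (arith_iff _ h e E).1
  | ex _ ih =>
      rintro e E ⟨R, h1, h2⟩
      exact ⟨R, hS _ h1, ih _ _ h2⟩

theorem pi_anti {N : Type} {S S' : (k : ℕ) → Set (Set (Fin (k + 1) → N))}
    {d : Set (Fin 1 → N) → N} (hS : ∀ k, S k ⊆ S' k) {φ : Fm} (hφ : IsPi φ) :
    ∀ (e : ℕ → N) (E : RA N), φ.Sat ⟨S', d⟩ e E → φ.Sat ⟨S, d⟩ e E := by
  induction hφ with
  | arith h => intro e E; exact (arith_iff _ h e E).2
  | all _ ih =>
      intro e E
      rw [sat_allR, sat_allR]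
      intro h R hR
      exact ih _ _ (h R (hS _ hR))

theorem sigma_union {N : Type} {S : ℕ → (k : ℕ) → Set (Set (Fin (k + 1) → N))}
    {d : Set (Fin 1 → N) → N} (hS : ∀ l m, l ≤ m → ∀ k, S l k ⊆ S m k) {φ : Fm}
    (hφ : IsSigma φ) : ∀ (e : ℕ → N) (E : RA N), φ.Sat ⟨fun k => ⋃ l, S l k, d⟩ e E →
      ∃ l, φ.Sat ⟨S l, d⟩ e E := by
  induction hφ with
  | arith h => intro e E h'; exact ⟨0, (arith_iff _ h e E).1 h'⟩
  | @ex k j φ hφ ih =>
      rintro e E ⟨R, h1, h2⟩
      obtain ⟨l, hl⟩ := ih _ _ h2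
      rw [Set.mem_iUnion] at h1
      obtain ⟨m, hm⟩ := h1
      refine ⟨max l m, R, hS m _ (le_max_right _ _) k hm, ?_⟩
      exact sigma_mono (hS l _ (le_max_left _ _)) hφ _ _ hl

theorem pi_union {N : Type} {S : ℕ → (k : ℕ) → Set (Set (Fin (k + 1) → N))}
    {d : Set (Fin 1 → N) → N} (hS : ∀ l m, l ≤ m → ∀ k, S l k ⊆ S m k) {φ : Fm}
    (hφ : IsPi φ) : ∀ (e : ℕ → N) (E : RA N), (∀ l, φ.Sat ⟨S l, d⟩ e E) →
      φ.Sat ⟨fun k => ⋃ l, S l k, d⟩ e E := by
  induction hφ with
  | arith h => intro e E h'; exact (arith_iff _ h e E).1 (h' 0)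
  | @all k j φ hφ ih =>
      intro e E h
      rw [sat_allR]
      intro R hR
      rw [Set.mem_iUnion] at hR
      obtain ⟨m, hm⟩ := hR
      apply ih
      intro l
      have h1 := h (max l m)
      rw [sat_allR] at h1
      exact pi_anti (hS l _ (le_max_left _ _)) hφ _ _ (h1 R (hS m _ (le_max_right _ _) k hm))

theorem diag {α : Type} [Nonempty α] (Q : ℕ → α → Prop) (hQ : ∀ l x, Q (l + 1) x → Q l x)
    (N : ℕ) : ∃ x, ∀ l ≤ N, (∃ x', Q l x') → Q l x := by
  have hQ' : ∀ l m, l ≤ m → ∀ x, Q m x → Q l x := by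
    intro l m h x
    induction h with
    | refl => exact id
    | step _ ih => exact fun h' => ih (hQ _ _ h')
  induction N with
  | zero =>
      by_cases h : ∃ x', Q 0 x'
      · obtain ⟨x, hx⟩ := h
        refine ⟨x, fun l hl _ => ?_⟩
        rw [Nat.le_zero.1 hl]; exact hx
      · refine ⟨Classical.arbitrary α, fun l hl h' => ?_⟩
        rw [Nat.le_zero.1 hl] at h'
        exact absurd h' h
  | succ N ih =>
      by_cases h : ∃ x', Q (N + 1) x'
      · obtain ⟨x, hx⟩ := h
        exact ⟨x, fun l hl _ => hQ' l _ hl x hx⟩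
      · obtain ⟨x, hx⟩ := ih
        refine ⟨x, fun l hl h' => ?_⟩
        rcases Nat.le_succ_iff.1 hl with h1 | h1
        · exact hx l h1 h'
        · rw [h1] at h'; exact absurd h' h

end Pool.Agent.R601.BL
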